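import Pool.Agent.P.MP_a28080_pr.R.Main
import Pool.Agent.P.MP_a28080_pr.R.King

namespace Pool.Agent.Results.MP_a28080_pr.AllRadii

open MeasureTheory FirstOrder Pool.Agent.P.MP_a28080_pr

theorem result : ∃ (d : ℕ) (φ : Language.graph.Sentence), 1 ≤ d ∧
    ∀ r₁ r₂ : ℕ, 1 ≤ r₁ → 1 ≤ r₂ →
    ∃ (V₁ V₂ : Type) (G₁ : SimpleGraph V₁) (G₂ : SimpleGraph V₂),
      DimTrans G₁ d ∧ DimTrans G₂ d ∧ (∃! μ, IsUSF G₁ μ) ∧ (∃! μ, IsUSF G₂ μ) ∧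
      ∀ μ₁ μ₂, IsUSF G₁ μ₁ → IsUSF G₂ μ₂ →
      (∃ B, MeasurableSet B ∧ 0 < μ₁ B ∧ ∀ F ∈ B, Sat (compGraph G₁ F r₁) φ) ∧
      (∀ᵐ F ∂μ₂, ¬ Sat (compGraph G₂ F r₂) φ) ∧
      (∀ (Ω : Type) [MeasurableSpace Ω] (P : Measure Ω) (F₁ : Ω → SimpleGraph V₁)
        (F₂ : Ω → SimpleGraph V₂), Measurable F₁ → Measurable F₂ → P.map F₁ = μ₁ →
        P.map F₂ = μ₂ → ∃ E, MeasurableSet E ∧ 0 < P E ∧
          ∀ ω ∈ E, ¬ ElemEq (compGraph G₁ (F₁ ω) r₁) (compGraph G₂ (F₂ ω) r₂)) ∧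
      ¬ ∀ᵐ p ∂(μ₁.prod μ₂), ElemEq (compGraph G₁ p.1 r₁) (compGraph G₂ p.2 r₂) := by
  refine ⟨20, psi, by norm_num, fun r₁ r₂ h₁ h₂ => ?_⟩
  obtain ⟨μ₀, h0, B, hB, hpos, hsat⟩ := R.lamp_usf h₁
  obtain ⟨ν₀, k0⟩ := R.king_usf (d := 20)
  refine ⟨_, _, R.lampG 20 (4 * r₁ + 9), R.kingG 20, R.lamp_dim (μ := 2 * r₁ + 4) (by omega),
    R.king_dim, ⟨μ₀, h0, fun μ hμ => usf_unique hμ h0⟩, ⟨ν₀, k0, fun μ hμ => usf_unique hμ k0⟩,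
    fun μ ν hμ hν => ?_⟩
  obtain rfl := usf_unique hμ h0
  have key : ∀ (Ω : Type) [MeasurableSpace Ω] (P : Measure Ω)
      (F₁ : Ω → SimpleGraph (R.VV 20 (4 * r₁ + 9))) (F₂ : Ω → SimpleGraph (Fin 20 → ℤ)),
      Measurable F₁ → Measurable F₂ → P.map F₁ = μ → P.map F₂ = ν →
      ∃ E, MeasurableSet E ∧ 0 < P E ∧ ∀ ω ∈ E, ¬ ElemEq
        (compGraph (R.lampG 20 (4 * r₁ + 9)) (F₁ ω) r₁) (compGraph (R.kingG 20) (F₂ ω) r₂) := by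
    intro Ω _ P F₁ F₂ m1 m2 e1 e2
    refine ⟨F₁ ⁻¹' B ∩ F₂ ⁻¹' {F | F ≤ R.kingG 20}, (m1 hB).inter (m2 (measurableSet_le _)), ?_,
      fun ω hω h => R.king_not_psi hω.2 h₂ ((h psi).mp (hsat _ hω.1))⟩
    have h1 : ∀ᵐ ω ∂P, ω ∈ F₂ ⁻¹' {F | F ≤ R.kingG 20} :=
      ae_of_ae_map m2.aemeasurable (e2 ▸ usf_ae_le hν)
    rw [Set.inter_comm, Measure.measure_inter_eq_of_ae h1, ← Measure.map_apply m1 hB, e1]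
    exact hpos
  refine ⟨⟨B, hB, hpos, hsat⟩, (usf_ae_le hν).mono fun F hF => R.king_not_psi hF h₂, key,
    fun h => ?_⟩
  have := hμ.1
  have := hν.1
  obtain ⟨E, -, h1, h2⟩ := key _ (μ.prod ν) Prod.fst Prod.snd measurable_fst measurable_snd
    (by simp) (by simp)
  exact h1.ne' (measure_mono_null h2 (ae_iff.mp h))

end Pool.Agent.Results.MP_a28080_pr.AllRadii
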