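import Pool.Agent.P.MP_a28080_pr.Limit
import Pool.Agent.P.MP_a28080_pr.Cocycle

namespace Pool.Agent.Results.MP_a28080_pr.NotEquivalent

open MeasureTheory FirstOrder Pool.Agent.P.MP_a28080_pr

theorem result : ∃ (d : ℕ) (V : Type) (G : SimpleGraph V) (φ : Language.graph.Sentence),
    1 ≤ d ∧ DimTrans G d ∧ (∃! μ, IsUSF G μ) ∧ ∀ μ, IsUSF G μ →
      (∃ B, MeasurableSet B ∧ 0 < μ B ∧ ∀ F ∈ B, Sat (compGraph G F 1) φ) ∧
      (∀ᵐ F ∂μ, ¬ Sat (compGraph G F 2) φ) ∧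
      (∀ (Ω : Type) [MeasurableSpace Ω] (P : Measure Ω) (F₁ F₂ : Ω → SimpleGraph V),
        Measurable F₁ → Measurable F₂ → P.map F₁ = μ → P.map F₂ = μ →
        ∃ E, MeasurableSet E ∧ 0 < P E ∧
          ∀ ω ∈ E, ¬ ElemEq (compGraph G (F₁ ω) 1) (compGraph G (F₂ ω) 2)) ∧
      ¬ ∀ᵐ p ∂(μ.prod μ), ElemEq (compGraph G p.1 1) (compGraph G p.2 2) := by
  obtain ⟨μ₀, h0, hpos⟩ := exists_usf (d := 20) rfl
  refine ⟨20, BCC 20, bccG 20, psi, by norm_num, bccG_dim,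
    ⟨μ₀, h0, fun μ hμ => usf_unique hμ h0⟩, fun μ hμ => ?_⟩
  obtain rfl := usf_unique hμ h0
  have key : ∀ (Ω : Type) [MeasurableSpace Ω] (P : Measure Ω) (F₁ F₂ : Ω → SimpleGraph (BCC 20)),
      Measurable F₁ → Measurable F₂ → P.map F₁ = μ → P.map F₂ = μ →
      ∃ E, MeasurableSet E ∧ 0 < P E ∧
        ∀ ω ∈ E, ¬ ElemEq (compGraph (bccG 20) (F₁ ω) 1) (compGraph (bccG 20) (F₂ ω) 2) := by
    intro Ω _ P F₁ F₂ m1 m2 e1 e2
    refine ⟨F₁ ⁻¹' TB 20 ∩ F₂ ⁻¹' {F | F ≤ bccG 20},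
      (m1 measurableSet_TB).inter (m2 (measurableSet_le _)), ?_,
      fun ω hω h => not_psi_two hω.2 ((h psi).mp (TB_sat hω.1))⟩
    have h1 : ∀ᵐ ω ∂P, ω ∈ F₂ ⁻¹' {F | F ≤ bccG 20} :=
      ae_of_ae_map m2.aemeasurable (e2 ▸ usf_ae_le hμ)
    rw [Set.inter_comm, Measure.measure_inter_eq_of_ae h1,
      ← Measure.map_apply m1 measurableSet_TB, e1]
    exact hpos
  refine ⟨⟨TB 20, measurableSet_TB, hpos, fun F => TB_sat⟩,
    (usf_ae_le hμ).mono fun F => not_psi_two, key, fun h => ?_⟩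
  have := hμ.1
  obtain ⟨E, -, h1, h2⟩ := key _ (μ.prod μ) Prod.fst Prod.snd measurable_fst measurable_snd
    (by simp) (by simp)
  exact h1.ne' (measure_mono_null h2 (ae_iff.mp h))

end Pool.Agent.Results.MP_a28080_pr.NotEquivalent
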